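import Mathlib
import Pool.Agent.Lib.Topology38.Brouwer
import Pool.Agent.Lib.MP_71c9ee_al.Estimate
import Pool.Agent.Lib.MP_71c9ee_al.AC

open Matrix Matrix.SpecialLinearGroup Subgroup
open Pool.Agent.Lib.MP_71c9ee_al

namespace Pool.Agent.Results.MP_71c9ee_al.GeneralisedAC

section Construction

variable (k : ℕ)

/-- The ambient Euclidean space. -/
abbrev E : Type := EuclideanSpace ℝ (Fin k × Fin 8)

/-- The unit sphere. -/
abbrev Sph : Type := Metric.sphere (0 : E k) 1

/-- Scaled coordinate functions on the sphere. -/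
noncomputable def coord (a : Fin k) (b : Fin 8) : C(Sph k, ℝ) :=
  ⟨fun x => (1 / 1000) * (x : E k) (a, b), by fun_prop⟩

/-- Sum of squares of the entries measuring the distance to scalar matrices. -/
def level2 {A : Type*} [CommRing A] (U : Fin k → SpecialLinearGroup (Fin 3) A) : A :=
  ∑ a, ∑ i : Fin 3, ∑ j : Fin 3,
    ((if i ≠ j then (U a).1 j i ^ 2 else 0) + ((U a).1 j j - (U a).1 i i) ^ 2)

lemma map_level2 {A B : Type*} [CommRing A] [CommRing B] (f : A →+* B)
    (U : Fin k → SpecialLinearGroup (Fin 3) A) :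
    f (level2 k U) = level2 k (fun a => Matrix.SpecialLinearGroup.map f (U a)) := by
  unfold level2
  simp only [map_sum, map_add, map_pow, map_sub, apply_ite f, map_zero,
    Matrix.SpecialLinearGroup.map_apply_coe, RingHom.mapMatrix_apply, Matrix.map_apply]

/-- The function whose inverse we adjoin. -/
noncomputable def ff : C(Sph k, ℝ) := level2 k (fun a => uu (coord k a))

lemma level2_term_nonneg (U : Fin k → SpecialLinearGroup (Fin 3) ℝ) (a : Fin k) (i j : Fin 3) :
    0 ≤ (if i ≠ j then (U a).1 j i ^ 2 else 0) + ((U a).1 j j - (U a).1 i i) ^ 2 := by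
  split_ifs <;> positivity

lemma phi_eq_zero_of_level2 (U : Fin k → SpecialLinearGroup (Fin 3) ℝ) (h : level2 k U = 0)
    (a : Fin k) : phi (U a).1 = 0 := by
  unfold level2 at h
  have h1 := (Finset.sum_eq_zero_iff_of_nonneg (fun a _ => Finset.sum_nonneg (fun i _ =>
    Finset.sum_nonneg (fun j _ => level2_term_nonneg k U a i j)))).mp h a (Finset.mem_univ _)
  have h2 : ∀ i j : Fin 3, (if i ≠ j then (U a).1 j i ^ 2 else 0) +
      ((U a).1 j j - (U a).1 i i) ^ 2 = 0 := by
    intro i j
    have h3 := (Finset.sum_eq_zero_iff_of_nonneg (fun i _ =>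
      Finset.sum_nonneg (fun j _ => level2_term_nonneg k U a i j))).mp h1 i (Finset.mem_univ _)
    exact (Finset.sum_eq_zero_iff_of_nonneg
      (fun j _ => level2_term_nonneg k U a i j)).mp h3 j (Finset.mem_univ _)
  have hoff : ∀ i j : Fin 3, i ≠ j → (U a).1 j i = 0 := by
    intro i j hij
    have h3 := h2 i j
    rw [if_pos hij] at h3
    nlinarith [sq_nonneg ((U a).1 j i), sq_nonneg ((U a).1 j j - (U a).1 i i)]
  have hdiag : ∀ i j : Fin 3, (U a).1 j j = (U a).1 i i := by
    intro i j
    have h3 := h2 i j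
    split_ifs at h3 with hij
    · nlinarith [sq_nonneg ((U a).1 j i), sq_nonneg ((U a).1 j j - (U a).1 i i)]
    · nlinarith [sq_nonneg ((U a).1 j j - (U a).1 i i)]
  have e01 := hoff 1 0 (by decide)
  have e02 := hoff 2 0 (by decide)
  have e10 := hoff 0 1 (by decide)
  have e12 := hoff 2 1 (by decide)
  have e20 := hoff 0 2 (by decide)
  have e21 := hoff 1 2 (by decide)
  have d1 := hdiag 1 0
  have d2 := hdiag 2 1
  funext b
  fin_cases b <;> simp [phi, e01, e02, e10, e12, e20, e21, d1, d2]

/-- Evaluation at a point of the sphere. -/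
noncomputable def evS (x : Sph k) : C(Sph k, ℝ) →+* ℝ :=
  (ContinuousMap.evalAlgHom ℝ ℝ x).toRingHom

/-- Evaluation at a point of the Euclidean space. -/
noncomputable def evE (x : E k) : C(E k, ℝ) →+* ℝ :=
  (ContinuousMap.evalAlgHom ℝ ℝ x).toRingHom

/-- Restriction to the sphere. -/
noncomputable def res : C(E k, ℝ) →+* C(Sph k, ℝ) :=
  (ContinuousMap.compRightAlgHom ℝ ℝ
    (⟨Subtype.val, continuous_subtype_val⟩ : C(Sph k, E k))).toRingHom

lemma evS_apply (x : Sph k) (f : C(Sph k, ℝ)) : evS k x f = f x := rfl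

lemma evE_apply (x : E k) (f : C(E k, ℝ)) : evE k x f = f x := rfl

lemma evS_res (x : Sph k) (f : C(E k, ℝ)) : evS k x (res k f) = evE k x f := rfl

lemma evS_comp_res (x : Sph k) : (evS k x).comp (res k) = evE k x := RingHom.ext (evS_res k x)

lemma map_evS_uu (x : Sph k) (a : Fin k) :
    Matrix.SpecialLinearGroup.map (evS k x) (uu (coord k a)) =
      uu (fun b => (1 / 1000) * (x : E k) (a, b)) := by
  rw [map_uu]
  rfl

lemma sphere_sum (x : Sph k) : ∑ a : Fin k, ∑ b : Fin 8, ((x : E k) (a, b)) ^ 2 = 1 := by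
  have h1 : ‖(x : E k)‖ = 1 := by simp
  have h2 := EuclideanSpace.norm_sq_eq (x : E k)
  rw [h1] at h2
  rw [Fintype.sum_prod_type] at h2
  simp only [Real.norm_eq_abs, sq_abs] at h2
  linarith

lemma sphere_coord_le (x : Sph k) (q : Fin k × Fin 8) : |(x : E k) q| ≤ 1 := by
  have h1 : ‖(x : E k)‖ = 1 := by simp
  have h2 := EuclideanSpace.norm_sq_eq (x : E k)
  rw [h1] at h2
  have h3 := Finset.single_le_sum (f := fun q => ‖(x : E k) q‖ ^ 2)
    (fun q _ => sq_nonneg _) (Finset.mem_univ q)
  simp only [] at h3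
  rw [← h2] at h3
  rw [← Real.norm_eq_abs]
  nlinarith [norm_nonneg ((x : E k) q)]

lemma pairing_pos (x : Sph k) :
    0 < ∑ a : Fin k, ∑ b : Fin 8, (x : E k) (a, b) *
      phi (Matrix.SpecialLinearGroup.map (evS k x) (uu (coord k a))).1 b := by
  have h1 : ∀ a : Fin k, (1 / 10000) * ∑ b : Fin 8, ((x : E k) (a, b)) ^ 2 ≤
      ∑ b : Fin 8, (x : E k) (a, b) *
      phi (Matrix.SpecialLinearGroup.map (evS k x) (uu (coord k a))).1 b := by
    intro a
    rw [map_evS_uu]
    exact pos_pairing (fun b => (x : E k) (a, b)) (fun b => sphere_coord_le k x (a, b))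
  have h2 := Finset.sum_le_sum (s := (Finset.univ : Finset (Fin k))) (fun a _ => h1 a)
  rw [← Finset.mul_sum, sphere_sum] at h2
  linarith

lemma ff_ne_zero (x : Sph k) : ff k x ≠ 0 := by
  intro h
  rw [← evS_apply, ff, map_level2] at h
  have h1 := pairing_pos k x
  have h2 := phi_eq_zero_of_level2 k _ h
  have h3 : ∑ a : Fin k, ∑ b : Fin 8, (x : E k) (a, b) *
      phi (Matrix.SpecialLinearGroup.map (evS k x) (uu (coord k a))).1 b = 0 := by
    apply Finset.sum_eq_zero
    intro a _
    apply Finset.sum_eq_zero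
    intro b _
    rw [h2 a]
    simp
  rw [h3] at h1
  exact lt_irrefl _ h1

/-- The inverse of `ff`. -/
noncomputable def psi : C(Sph k, ℝ) := ⟨fun x => (ff k x)⁻¹, (ff k).continuous.inv₀ (ff_ne_zero k)⟩

lemma ff_mul_psi : ff k * psi k = 1 := by
  ext x
  exact mul_inv_cancel₀ (ff_ne_zero k x)

/-- The finite set generating our ring of functions on the sphere. -/
noncomputable def gens : Set C(Sph k, ℝ) :=
  Set.range (fun q : Fin k × Fin 8 => coord k q.1 q.2) ∪ {psi k}

/-- A finitely generated ring of real functions on the sphere. -/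
noncomputable def AA : Subring C(Sph k, ℝ) := Subring.closure (gens k)

lemma gens_finite : (gens k).Finite := (Set.finite_range _).union (Set.finite_singleton _)

lemma coord_mem (a : Fin k) (b : Fin 8) : coord k a b ∈ AA k :=
  Subring.subset_closure (Or.inl ⟨(a, b), rfl⟩)

lemma psi_mem : psi k ∈ AA k := Subring.subset_closure (Or.inr rfl)

lemma AA_fg : ∃ S : Set (AA k), S.Finite ∧ Subring.closure S = ⊤ := by
  refine ⟨(AA k).subtype ⁻¹' (gens k), ?_, ?_⟩
  · exact (gens_finite k).preimage ((AA k).subtype_injective.injOn)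
  · rw [eq_top_iff]
    rintro x -
    have h1 : (Subring.closure ((AA k).subtype ⁻¹' (gens k))).map (AA k).subtype = AA k := by
      rw [RingHom.map_closure, Set.image_preimage_eq_of_subset]
      · rfl
      · intro y hy
        exact ⟨⟨y, Subring.subset_closure hy⟩, rfl⟩
    have h2 : (x : C(Sph k, ℝ)) ∈ AA k := x.2
    obtain ⟨y, hy, hyx⟩ := h1.ge h2
    have : y = x := Subtype.ext hyx
    rwa [← this]

/-- The coordinates as elements of the ring `AA k`. -/
noncomputable def coordA (a : Fin k) (b : Fin 8) : AA k := ⟨coord k a b, coord_mem k a b⟩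

/-- The group of the counterexample. -/
abbrev GG : Type := E3 (AA k)

/-- The first tuple. -/
noncomputable def UU (a : Fin k) : GG k := ⟨uu (coordA k a), uu_mem _⟩

open Classical in
/-- The second tuple, `(e_{12}(1), 1, ..., 1)`. -/
noncomputable def VV (a : Fin k) : GG k :=
  if (a : ℕ) = 0 then ⟨transvection h01 1, trans_mem h01 1⟩ else 1

lemma UU_mem : UU k ∈ N k (GG k) := by
  apply normalClosure_eq_top
  rw [Ideal.eq_top_iff_one]
  set I := Ideal.span ({a | ∃ (m : Fin k) (i j : Fin 3), i ≠ j ∧ a = (UU k m).1.1 j i} ∪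
      {a | ∃ (m : Fin k) (i j : Fin 3), a = (UU k m).1.1 j j - (UU k m).1.1 i i}) with hI
  have h1 : level2 k (fun a => (UU k a).1) ∈ I := by
    unfold level2
    apply Ideal.sum_mem
    intro a _
    apply Ideal.sum_mem
    intro i _
    apply Ideal.sum_mem
    intro j _
    apply Ideal.add_mem
    · split_ifs with hij
      · rw [sq]
        apply Ideal.mul_mem_left
        exact Ideal.subset_span (Or.inl ⟨a, i, j, hij, rfl⟩)
      · exact I.zero_mem
    · rw [sq]
      apply Ideal.mul_mem_left
      exact Ideal.subset_span (Or.inr ⟨a, i, j, rfl⟩)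
  have h2 : level2 k (fun a => (UU k a).1) * (⟨psi k, psi_mem k⟩ : AA k) = 1 := by
    apply Subtype.ext
    have h3 : (AA k).subtype (level2 k (fun a => (UU k a).1)) = ff k := by
      rw [map_level2, ff]
      congr 1
      funext a
      change Matrix.SpecialLinearGroup.map (AA k).subtype (uu (coordA k a)) = _
      rw [map_uu]
      rfl
    change (AA k).subtype (level2 k (fun a => (UU k a).1)) * psi k = 1
    rw [h3, ff_mul_psi]
  rw [← h2]
  exact Ideal.mul_mem_right _ _ h1

lemma VV_mem (hk : 1 ≤ k) : VV k ∈ N k (GG k) := by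
  apply normalClosure_eq_top
  rw [Ideal.eq_top_iff_one]
  apply Ideal.subset_span
  refine Or.inl ⟨⟨0, by omega⟩, 1, 0, by decide, ?_⟩
  have : (VV k ⟨0, by omega⟩) = ⟨transvection h01 1, trans_mem h01 1⟩ := by
    simp [VV]
  rw [this]
  simp [transvection_coe]

/-- The embedding of the group into `SL(3)` of the ring of continuous functions on the sphere. -/
noncomputable def iota : GG k →* SpecialLinearGroup (Fin 3) C(Sph k, ℝ) :=
  (Matrix.SpecialLinearGroup.map (AA k).subtype).comp (E3 (AA k)).subtype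

/-- Restriction of matrices of functions to the sphere. -/
noncomputable def ppi : SpecialLinearGroup (Fin 3) C(E k, ℝ) →*
    SpecialLinearGroup (Fin 3) C(Sph k, ℝ) := Matrix.SpecialLinearGroup.map (res k)

lemma res_surjective : Function.Surjective (res k) := by
  intro f
  obtain ⟨g, hg⟩ := ContinuousMap.exists_restrict_eq (Metric.isClosed_sphere (x := (0 : E k)) (ε := 1)) f
  refine ⟨g, ?_⟩
  rw [← hg]
  rfl

lemma iota_lift (w : GG k) : ∃ v, ppi k v = iota k w := by
  have key : E3 (AA k) ≤ ((ppi k).range).comap (Matrix.SpecialLinearGroup.map (AA k).subtype) := by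
    rw [E3, closure_le]
    rintro _ ⟨i, j, hij, a, rfl⟩
    obtain ⟨g, hg⟩ := res_surjective k (a : C(Sph k, ℝ))
    refine ⟨transvection hij g, ?_⟩
    rw [ppi, map_trans, hg, map_trans]
    rfl
  obtain ⟨v, hv⟩ := key w.2
  exact ⟨v, hv⟩

/-- Matrices of functions which are scalar at the point `x`. -/
noncomputable def ZZ (x : E k) : Subgroup (SpecialLinearGroup (Fin 3) C(E k, ℝ)) :=
  (center (SpecialLinearGroup (Fin 3) ℝ)).comap (Matrix.SpecialLinearGroup.map (evE k x))

lemma ZZ_normal (x : E k) : (ZZ k x).Normal := by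
  unfold ZZ
  infer_instance

lemma VV_lift (hk : 1 ≤ k) : ∃ W : Fin k → SpecialLinearGroup (Fin 3) C(E k, ℝ),
    (∀ a, ppi k (W a) = iota k (VV k a)) ∧ ∀ x, ∃ a, W a ∉ ZZ k x := by
  refine ⟨fun a => if (a : ℕ) = 0 then transvection h01 1 else 1, ?_, ?_⟩
  · intro a
    by_cases ha : (a : ℕ) = 0
    · have h1 : VV k a = ⟨transvection h01 1, trans_mem h01 1⟩ := by simp [VV, ha]
      beta_reduce
      rw [h1, if_pos ha, ppi, map_trans, map_one]
      change _ = Matrix.SpecialLinearGroup.map (AA k).subtype (transvection h01 1)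
      rw [map_trans, map_one]
    · have h1 : VV k a = 1 := by simp [VV, ha]
      beta_reduce
      rw [h1, if_neg ha, map_one, map_one]
  · intro x
    refine ⟨⟨0, by omega⟩, ?_⟩
    simp only [if_true]
    intro hmem
    unfold ZZ at hmem
    rw [Subgroup.mem_comap, map_trans, map_one, transvection_mem_center_iff] at hmem
    exact one_ne_zero hmem

lemma mem_center_of_phi {M : SpecialLinearGroup (Fin 3) ℝ} (h : phi M.1 = 0) :
    M ∈ center (SpecialLinearGroup (Fin 3) ℝ) := by
  rw [Matrix.SpecialLinearGroup.mem_center_iff]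
  refine ⟨M.1 0 0, ?_, (phi_zero h).symm⟩
  have h1 : M.1.det = 1 := M.2
  rw [phi_zero h] at h1
  simpa [Matrix.scalar_apply, Matrix.det_diagonal] using h1

theorem UU_no_lift : ¬ ∃ W : Fin k → SpecialLinearGroup (Fin 3) C(E k, ℝ),
    (∀ a, ppi k (W a) = iota k (UU k a)) ∧ ∀ x, ∃ a, W a ∉ ZZ k x := by
  rintro ⟨W, hW, hWZ⟩
  let q : E k → E k := fun x => WithLp.toLp 2 (fun p : Fin k × Fin 8 =>
    phi (Matrix.SpecialLinearGroup.map (evE k x) (W p.1)).1 p.2)
  have hq : Continuous q := by
    apply (PiLp.continuous_toLp 2 _).comp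
    apply continuous_pi
    rintro ⟨a, b⟩
    fin_cases b <;> simp [phi, evE_apply] <;> fun_prop
  obtain ⟨x, -, hx⟩ := Pool.Agent.Lib.Topology38.exists_zero_of_continuous hq (by
    intro x hx
    have hxS : x ∈ Metric.sphere (0 : E k) 1 := by simpa using hx
    have h1 := pairing_pos k ⟨x, hxS⟩
    have h2 : ∀ a, Matrix.SpecialLinearGroup.map (evE k x) (W a) =
        Matrix.SpecialLinearGroup.map (evS k ⟨x, hxS⟩) (uu (coord k a)) := by
      intro a
      have h3 : iota k (UU k a) = uu (coord k a) := by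
        change Matrix.SpecialLinearGroup.map (AA k).subtype (uu (coordA k a)) = _
        rw [map_uu]
        rfl
      rw [← h3, ← hW a]
      rfl
    have h4 : inner ℝ x (q x) = ∑ a : Fin k, ∑ b : Fin 8, x (a, b) *
      phi (Matrix.SpecialLinearGroup.map (evS k ⟨x, hxS⟩) (uu (coord k a))).1 b := by
      rw [PiLp.inner_apply, Fintype.sum_prod_type]
      apply Finset.sum_congr rfl
      intro a _
      apply Finset.sum_congr rfl
      intro b _
      simp only [q, h2]
      simp [mul_comm]
    rw [h4]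
    exact h1)
  obtain ⟨a, ha⟩ := hWZ x
  apply ha
  unfold ZZ
  rw [Subgroup.mem_comap]
  apply mem_center_of_phi
  funext b
  have := congrFun (congrArg WithLp.ofLp hx) (a, b)
  simpa [q] using this

theorem not_ACEquiv (hk : 1 ≤ k) : ¬ ACEquiv (VV k) (UU k) := fun h =>
  UU_no_lift k (lift_equiv (iota k) (ppi k) (iota_lift k) (ZZ k) (ZZ_normal k) h (VV_lift k hk))

end Construction

/-- **The generalised Andrews-Curtis conjecture fails.** For every `k ≥ 2` there are a finitely
generated perfect group `G` and two `k`-tuples in `N k G` which are not AC-equivalent, although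
their images in the (trivial) abelianization are. -/
theorem result (k : ℕ) (hk : 2 ≤ k) : ∃ (G : Type) (_ : Group G),
    Group.FG G ∧ commutator G = ⊤ ∧ ¬ SatisfiesGAC G ∧ max (normalRank G) 2 ≤ k ∧
    ∃ U ∈ N k G, ∃ V ∈ N k G, ACEquiv (abTuple U) (abTuple V) ∧ ¬ ACEquiv U V := by
  have hne : ¬ ACEquiv (UU k) (VV k) := fun h => not_ACEquiv k (by omega) h.symm
  have hU := UU_mem k
  have hV := VV_mem k (by omega)
  have hperf : commutator (GG k) = ⊤ := E3_perfect
  have hsub : Subsingleton (Abelianization (GG k)) := by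
    rw [Abelianization, hperf]
    exact QuotientGroup.subsingleton_quotient_top
  have hab : ACEquiv (abTuple (UU k)) (abTuple (VV k)) := by
    have : abTuple (UU k) = abTuple (VV k) := Subsingleton.elim _ _
    rw [this]
    exact Relation.ReflTransGen.refl
  have hrank : max (normalRank (GG k)) 2 ≤ k := by
    apply max_le _ hk
    exact Nat.sInf_le ⟨by omega, ⟨_, hU⟩⟩
  obtain ⟨S, hS, hSA⟩ := AA_fg k
  refine ⟨GG k, inferInstance, E3_fg hS hSA, hperf, ?_, hrank, UU k, hU, VV k, hV, hab, hne⟩
  intro h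
  exact hne ((h k hrank _ hU _ hV).mpr hab)

end Pool.Agent.Results.MP_71c9ee_al.GeneralisedAC
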